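import Pool.Agent.P.MP_839d28_al.KzModel
import Pool.Agent.P.MP_839d28_al.Transfer

open MeasureTheory

namespace Pool.Agent.Results.MP_839d28_al.KazhdanMother

open Pool.Agent.P.MP_839d28_al Pool.Agent.P.MP_839d28_al.Kz in
/-- One finitely presented group with property (T) maps densely to `SO(n)` for infinitely many
`n`, and the images of its generators have a spectral gap that does not depend on `n`. -/
theorem result (p : ℕ) (hp : p.Prime) (h72 : 72 < p) :
    ∃ (Γ : Type) (_ : Group Γ) (a : Fin 7 → Γ),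
      Group.IsFinitelyPresented Γ ∧ Subgroup.closure (Set.range a) = ⊤ ∧ (∀ i, a i ^ p = 1) ∧
      (∀ (H : Type) [NormedAddCommGroup H] [InnerProductSpace ℂ H] [CompleteSpace H]
        (ρ : Γ →* (H ≃ₗᵢ[ℂ] H)), (∀ w, (∀ γ, ρ γ w = w) → w = 0) →
          ∀ v, ∃ i, ‖v‖ ≤ 34 * p * ‖ρ (a i) v - v‖) ∧
      ∀ s n : ℕ, 2 ≤ s → n + 1 = p ^ (3 * s) →
        ∃ φ : Γ →* Matrix.specialOrthogonalGroup (Fin n) ℝ, DenseRange φ ∧
          ∃ S : Finset (Matrix (Fin n) (Fin n) ℝ), S.card = 14 ∧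
            (∀ g, g ∈ S ↔ ∃ i, g = φ (a i) ∨ g = φ (a i)⁻¹) ∧
            ∀ μ : Measure (Fin n → Fin n → ℝ), IsProbabilityMeasure μ →
              μ {x | ¬ ((Matrix.of x).transpose * Matrix.of x = 1 ∧ (Matrix.of x).det = 1)} = 0 →
              (∀ g : Matrix (Fin n) (Fin n) ℝ, g.transpose * g = 1 → g.det = 1 →
                μ.map (fun x : Fin n → Fin n → ℝ => fun i j => ∑ l, g i l * x l j) = μ) →
              ∀ f : (Fin n → Fin n → ℝ) → ℝ, MemLp f 2 μ → ∫ x, f x ∂μ = 0 →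
                ∑ s ∈ S, ∫ x, f (fun i j => ∑ l, s i l * x l j) * f x ∂μ
                  ≤ (14 - 1 / (68 * p) ^ 2) * ∫ x, f x ^ 2 ∂μ := by
  classical
  have : Fact p.Prime := ⟨hp⟩
  have hp0 : (0 : ℝ) < p := Nat.cast_pos.mpr hp.pos
  have fix : ∀ (H : Type) [NormedAddCommGroup H] [InnerProductSpace ℂ H]
      (ρ : Gam p →* (H ≃ₗᵢ[ℂ] H)) (w : H), (∀ i, ρ (PresentedGroup.of i) w = w) →
      ∀ γ, ρ γ w = w := fun H _ _ ρ w hw γ =>
    Subgroup.closure_induction (p := fun x _ => ρ x w = w) (by rintro _ ⟨i, rfl⟩; exact hw i)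
      (by simp) (fun x y _ _ hx hy => by rw [rho_mul, hy, hx])
      (fun x _ hx => by
        conv_lhs => rw [← hx, ← rho_mul, inv_mul_cancel, map_one]
        rfl)
      ((PresentedGroup.closure_range_of _).ge (Subgroup.mem_top γ))
  refine ⟨Gam p, inferInstance, PresentedGroup.of, gam_fp, PresentedGroup.closure_range_of _,
    gam_rel.ord, fun H _ _ _ ρ h0 v => ?_, fun s n hs hn => ?_⟩
  · obtain ⟨i, -, hi⟩ := Finset.exists_max_image Finset.univ
      (fun i : Fin 7 => ‖ρ (PresentedGroup.of i) v - v‖) Finset.univ_nonempty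
    obtain ⟨w, w1, w2⟩ := gam_rel.kaz ρ h72 v fun j => hi j (Finset.mem_univ j)
    exact ⟨i, by simpa [h0 w (fix H ρ w w1)] using w2⟩
  obtain ⟨s, rfl⟩ : ∃ t, s = t + 1 := ⟨s - 1, by omega⟩
  obtain ⟨φ, f1, f2, f3⟩ := exists_model (s := s) (κ := Fin n) h72 (by
    simp only [Fintype.card_fun, ZMod.card, Fintype.card_fin, hn]
    rw [← pow_mul, mul_comm])
  have f2 := f2 (by omega)
  have ft : ∀ γ, φ γ⁻¹ = (φ γ).transpose := fun γ => by
    rw [← Matrix.mul_one (φ γ⁻¹), ← (f1 γ).mul_transpose, ← Matrix.mul_assoc, ← map_mul,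
      inv_mul_cancel, map_one, Matrix.one_mul]
  choose ψ hψ using fun γ => emb_inc.surj (φ γ) (f1 γ)
  have hm : ∀ g : Matrix (Fin n) (Fin n) ℝ, SO g → g ∈ Matrix.specialOrthogonalGroup (Fin n) ℝ :=
    fun g hg => Matrix.mem_specialOrthogonalGroup_iff.mpr
      ⟨(Matrix.mem_orthogonalGroup_iff' _ _).mpr hg.1, hg.2⟩
  set T : Finset (SOG (Fin n)) := (Finset.univ.image fun i => ψ (PresentedGroup.of i)) ∪
    Finset.univ.image fun i => ψ (PresentedGroup.of i)⁻¹ with hT
  have t1 : ∀ g, g ∈ T ↔ ∃ i, inc _ g = φ (PresentedGroup.of i) ∨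
      inc _ g = φ (PresentedGroup.of i)⁻¹ := fun g => by
    simp only [hT, Finset.mem_union, Finset.mem_image, Finset.mem_univ, true_and, ← hψ,
      emb_inc.inj.eq_iff, exists_or, eq_comm]
  have t2 : T.card = 14 := by
    rw [hT, Finset.card_union_of_disjoint, Finset.card_image_of_injective,
      Finset.card_image_of_injective]
    · simp
    · intro i j h
      have := congrArg (inc _) h
      simp only [hψ, ft] at this
      exact (f2 i j).1 (Matrix.transpose_injective this)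
    · exact fun i j h => (f2 i j).1 (by simpa only [hψ] using congrArg (inc _) h)
    · rw [Finset.disjoint_left]
      intro g g1 g2
      obtain ⟨i, -, rfl⟩ := Finset.mem_image.mp g1
      obtain ⟨j, -, h⟩ := Finset.mem_image.mp g2
      exact (f2 i j).2 (by simpa only [hψ] using congrArg (inc _) h.symm)
  have t3 : ∀ g ∈ T, g⁻¹ ∈ T := fun g hg => by
    obtain ⟨i, h | h⟩ := (t1 g).mp hg
    · exact (t1 _).mpr ⟨i, .inr (by rw [emb_inc.inv, h, ft])⟩
    · exact (t1 _).mpr ⟨i, .inl (by rw [emb_inc.inv, h, ft, Matrix.transpose_transpose])⟩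
  have t4 : Kaz (T.image (inc _)) (68 * p) := by
    intro V _ _ _ R v ε hε hs g hg
    have : CompleteSpace V := FiniteDimensional.complete ℂ V
    have e : ∀ x y (v : V), R.ρ (φ (x * y)) v = R.ρ (φ x) (R.ρ (φ y) v) := fun x y v => by
      rw [map_mul, R.mul _ _ (f1 x) (f1 y)]
      rfl
    have e1 : ∀ v : V, R.ρ (φ 1) v = v := fun v => by rw [map_one, R.one]; rfl
    let ρ : Gam p →* (V ≃ₗᵢ[ℂ] V) := MonoidHom.mk'
      (fun γ =>
        { toFun := R.ρ (φ γ)
          map_add' := map_add _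
          map_smul' := map_smul _
          invFun := R.ρ (φ γ⁻¹)
          left_inv := fun v => by rw [← e, inv_mul_cancel, e1]
          right_inv := fun v => by rw [← e, mul_inv_cancel, e1]
          norm_map' := R.norm _ (f1 γ) })
      fun x y => LinearIsometryEquiv.ext (e x y)
    obtain ⟨w, w1, w2⟩ := gam_rel.kaz ρ h72 v (ε := ε) fun i =>
      hs _ (Finset.mem_image.mpr ⟨ψ (PresentedGroup.of i), (t1 _).mpr ⟨i, .inl (hψ _)⟩, hψ _⟩)
    have w3 := f3 V R w (fix V ρ w w1) g hg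
    have w4 : R.ρ g v - v = R.ρ g (v - w) - (v - w) := by rw [map_sub, w3]; abel
    rw [MatRep.N, w4]
    refine (norm_sub_le _ _).trans ?_
    rw [R.norm g hg]
    linarith
  refine ⟨φ.codRestrict _ fun γ => hm _ (f1 γ), ?_, T.image (inc _), ?_, fun g => ?_, ?_⟩
  · let e : SOG (Fin n) → Matrix.specialOrthogonalGroup (Fin n) ℝ :=
      fun g => ⟨inc _ g, hm _ (emb_inc.so g)⟩
    have e1 : Continuous e := continuous_inc.subtype_mk _
    have e2 : Function.Surjective e := fun g => by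
      have := Matrix.mem_specialOrthogonalGroup_iff.mp g.2
      obtain ⟨x, hx⟩ := emb_inc.surj g.1 ⟨(Matrix.mem_orthogonalGroup_iff' _ _).mp this.1, this.2⟩
      exact ⟨x, Subtype.ext hx⟩
    refine (e2.denseRange.dense_image e1 (dense_of_kaz T t3 (by positivity) t4)).mono ?_
    rintro _ ⟨g, hg, rfl⟩
    have : ∃ γ, φ γ = inc _ g := Submonoid.closure_induction (motive := fun g _ => ∃ γ, φ γ = inc _ g)
      (fun x hx => by
        obtain ⟨i, h | h⟩ := (t1 x).mp hx <;> exact ⟨_, h.symm⟩) ⟨1, by simp⟩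
      (fun x y _ _ ⟨a, ha⟩ ⟨b, hb⟩ => ⟨a * b, by rw [map_mul, map_mul, ha, hb]⟩) hg
    obtain ⟨γ, hγ⟩ := this
    exact ⟨γ, Subtype.ext hγ⟩
  · rw [Finset.card_image_of_injective _ emb_inc.inj, t2]
  · constructor
    · intro hg
      obtain ⟨x, hx, rfl⟩ := Finset.mem_image.mp hg
      exact (t1 x).mp hx
    · rintro ⟨i, rfl | rfl⟩
      · exact Finset.mem_image.mpr ⟨_, (t1 _).mpr ⟨i, .inl (hψ _)⟩, hψ _⟩
      · exact Finset.mem_image.mpr ⟨_, (t1 _).mpr ⟨i, .inr (hψ _)⟩, hψ _⟩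
  · refine to_array T (fun x y => x ≤ (14 - 1 / (68 * p) ^ 2) * y) fun ν _ _ f hf h0 => ?_
    simpa [t2] using gap_of_kaz T (by positivity) t4 ν f hf h0

end Pool.Agent.Results.MP_839d28_al.KazhdanMother
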