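import Pool.Agent.P.MP_839d28_al.K3.Gap

open MeasureTheory

namespace Pool.Agent.Results.MP_839d28_al.ThreeInvolutions

open Pool.Agent.P.MP_839d28_al Pool.Agent.P.MP_839d28_al.K3 in
/-- One `ε > 0` works for all `n ≥ 3` and all `k ≥ 3`, with `k` involutions and a two-sided
gap; for `k ≤ 2` there is no symmetric set of `k` topological generators. -/
theorem result : ∃ ε : ℝ, 0 < ε ∧ ∀ n : ℕ, 3 ≤ n → ∀ k : ℕ, List.TFAE [3 ≤ k,
    ∃ S : Finset (Matrix (Fin n) (Fin n) ℝ), S.card = k ∧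
      (∀ s ∈ S, s.transpose * s = 1 ∧ s.det = 1) ∧ (∀ s ∈ S, s.transpose ∈ S) ∧
      ∀ g : Matrix (Fin n) (Fin n) ℝ, g.transpose * g = 1 → g.det = 1 →
        g ∈ closure ((Submonoid.closure (S : Set (Matrix (Fin n) (Fin n) ℝ)) :
          Set (Matrix (Fin n) (Fin n) ℝ))),
    ∃ S : Finset (Matrix (Fin n) (Fin n) ℝ), S.card = k ∧
      (∀ s ∈ S, s.transpose * s = 1 ∧ s.det = 1) ∧ (∀ s ∈ S, s * s = 1 ∧ s ≠ 1) ∧
      (∀ g : Matrix (Fin n) (Fin n) ℝ, g.transpose * g = 1 → g.det = 1 →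
        g ∈ closure ((Submonoid.closure (S : Set (Matrix (Fin n) (Fin n) ℝ)) :
          Set (Matrix (Fin n) (Fin n) ℝ)))) ∧
      ∀ μ : Measure (Fin n → Fin n → ℝ), IsProbabilityMeasure μ →
        μ {x | ¬ ((Matrix.of x).transpose * Matrix.of x = 1 ∧ (Matrix.of x).det = 1)} = 0 →
        (∀ g : Matrix (Fin n) (Fin n) ℝ, g.transpose * g = 1 → g.det = 1 →
          μ.map (fun x : Fin n → Fin n → ℝ => fun i j => ∑ l, g i l * x l j) = μ) →
        ∀ f : (Fin n → Fin n → ℝ) → ℝ, MemLp f 2 μ → ∫ x, f x ∂μ = 0 →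
          |∑ s ∈ S, ∫ x, f (fun i j => ∑ l, s i l * x l j) * f x ∂μ|
            ≤ ((k : ℝ) - ε) * ∫ x, f x ^ 2 ∂μ] := by
  classical
  obtain ⟨C, hC, h⟩ := has3_all
  refine ⟨(36 * (4 * C) ^ 2)⁻¹, by positivity, fun n hn k => ?_⟩
  have tr : ∀ s : Matrix (Fin n) (Fin n) ℝ, s.transpose * s = 1 → s * s = 1 → s.transpose = s :=
    fun s h1 h2 => by
      rw [← Matrix.mul_one s.transpose, ← h2, ← Matrix.mul_assoc, h1, Matrix.one_mul]
  tfae_have 3 → 2 := fun ⟨S, h1, h2, h3, h4, _⟩ =>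
    ⟨S, h1, h2, fun s hs => (tr s (h2 s hs).1 (h3 s hs).1).symm ▸ hs, h4⟩
  tfae_have 2 → 1 := fun ⟨S, h1, h2, h3, h4⟩ =>
    h1 ▸ three_le hn S h2 h3 fun g hg => h4 g hg.1 hg.2
  tfae_have 1 → 3 := fun hk => by
    obtain ⟨S, s1, s2, s3⟩ := h n hn
    let T := S.preimage (inc _) emb_inc.inj.injOn
    have t1 : T.card ≤ 3 := (Finset.card_le_card_of_injOn (inc _)
      (fun g hg => by simpa [T] using hg) emb_inc.inj.injOn).trans s1
    have t2 : ∀ g ∈ T, g * g = 1 := fun g hg => emb_inc.inj (by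
      rw [map_mul, map_one]
      exact (s2 _ (Finset.mem_preimage.mp hg)).2)
    have t3 := s3.kaz (T := (T ×ˢ T).image fun p => inc _ (p.1 * p.2)) hC.le s2
      fun s hs s' hs' => by
        obtain ⟨a, rfl⟩ := emb_inc.surj s (s2 s hs).1
        obtain ⟨b, rfl⟩ := emb_inc.surj s' (s2 s' hs').1
        exact Finset.mem_image.mpr ⟨(a, b), by simp [T, hs, hs'], map_mul _ _ _⟩
    have c0 : 0 < 4 * C := by positivity
    have : IsProbabilityMeasure (Measure.haarMeasure (⊤ : TopologicalSpace.PositiveCompacts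
        (SOG (Fin n)))) := ⟨Measure.haarMeasure_self⟩
    have de : ∀ U : Finset (SOG (Fin n)), (∀ g ∈ U, g * g = 1) → T ⊆ insert 1 U →
        ∀ A : Matrix (Fin n) (Fin n) ℝ, SO A → A ∈ closure (Submonoid.closure
          (U.image (inc _) : Set (Matrix (Fin n) (Fin n) ℝ)) : Set (Matrix (Fin n) (Fin n) ℝ)) := by
      intro U u1 u2 A hA
      obtain ⟨g, rfl⟩ := emb_inc.surj A hA
      have hd := dense_of_gap (Measure.haarMeasure ⊤) T
        (fun g hg => by rwa [inv_eq_of_mul_eq_one_right (t2 g hg)]) (by positivity)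
        fun f a b => (le_abs_self _).trans (two_sided T T subset_rfl t1 c0 t3 _ f a b)
      refine closure_mono ?_ (mem_closure_image continuous_inc.continuousAt (hd g))
      rw [Finset.coe_image, ← MonoidHom.map_mclosure]
      refine Set.image_mono (Submonoid.closure_le.mpr fun x hx => ?_)
      rcases Finset.mem_insert.mp (u2 hx) with rfl | hx
      · exact one_mem _
      · exact Submonoid.subset_closure hx
    have t4 : (1 : SOG (Fin n)) ∉ T := fun h1 => by
      have := three_le hn ((T.erase 1).image (inc _)) (fun s hs => by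
        obtain ⟨g, -, rfl⟩ := Finset.mem_image.mp hs
        exact emb_inc.so g) (fun s hs => by
        obtain ⟨g, hg, rfl⟩ := Finset.mem_image.mp hs
        rwa [← emb_inc.inv, inv_eq_of_mul_eq_one_right (t2 g (Finset.mem_of_mem_erase hg))])
        (de _ (fun g hg => t2 g (Finset.mem_of_mem_erase hg)) (Finset.insert_erase h1).ge)
      have := this.trans Finset.card_image_le
      rw [Finset.card_erase_of_mem h1] at this
      omega
    obtain ⟨U, u1, u2⟩ := (infinite_inv hn).exists_subset_card_eq k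
    obtain ⟨W, w1, w2, w3⟩ := Finset.exists_subsuperset_card_eq (Finset.subset_union_left (s₁ := T)
      (s₂ := U)) (t1.trans hk) (u2.ge.trans (Finset.card_le_card Finset.subset_union_right))
    have w4 : ∀ g ∈ W, g * g = 1 ∧ g ≠ 1 := fun g hg => (Finset.mem_union.mp (w2 hg)).elim
      (fun h => ⟨t2 g h, by rintro rfl; exact t4 h⟩) fun h => u1 h
    refine ⟨W.image (inc _), by rw [Finset.card_image_of_injective _ emb_inc.inj, w3], ?_, ?_,
      fun g a b => de W (fun g hg => (w4 g hg).1) (w1.trans (Finset.subset_insert _ _)) g ⟨a, b⟩,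
      to_array W (fun x y => |x| ≤ ((k : ℝ) - _) * y) fun ν _ _ f a b =>
        w3 ▸ two_sided T W w1 t1 c0 t3 ν f a b⟩
    · intro s hs
      obtain ⟨g, -, rfl⟩ := Finset.mem_image.mp hs
      exact emb_inc.so g
    · intro s hs
      obtain ⟨g, hg, rfl⟩ := Finset.mem_image.mp hs
      exact ⟨by rw [← map_mul, (w4 g hg).1, map_one],
        fun h => (w4 g hg).2 (emb_inc.inj (h.trans (map_one _).symm))⟩
  tfae_finish

end Pool.Agent.Results.MP_839d28_al.ThreeInvolutions
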